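import Pool.Agent.Run7.h918.TP.Rainbow

/-!
# Turán's (3,4)-bound for the non-rainbow triples of an edge-colouring

The edges of the complete graph on `Fin n` are coloured with any number of colours. The triples
that are not rainbow (two of the three edges have the same colour) form a 3-graph; four vertices
contain an edge of this 3-graph unless they carry a properly coloured `K_4`. Turán's lower bound
`(4/9 - o(1)) C(n,3)` holds for these 3-graphs if almost all 4-sets are covered and the colour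
classes contain almost no induced paths and cycles on four vertices; the exact minimum, for every
`n`, is Turán's number if there are none of them.
-/

set_option autoImplicit false
open Finset
open scoped Classical

namespace Pool.Agent.Run7.h918.TP.Cover

/-- the 3-graph of the non-rainbow triples: two of the three edges have the same colour -/
noncomputable def nonRainbow {n : ℕ} (χ : Fin n → Fin n → ℕ) : Finset (Finset (Fin n)) :=
  (univ.powersetCard 3).filter fun T : Finset (Fin n) =>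
    ∃ x ∈ T, ∃ y ∈ T, ∃ z ∈ T, x ≠ y ∧ x ≠ z ∧ y ≠ z ∧ χ x y = χ x z

/-- the 4-element vertex sets that contain no edge of `H` -/
noncomputable def uncovered {n : ℕ} (H : Finset (Finset (Fin n))) : Finset (Finset (Fin n)) :=
  (univ.powersetCard 4).filter fun S : Finset (Fin n) => ∀ e ∈ H, ¬ e ⊆ S

/-- The quadruples `((a, b), (c, d))` of different vertices such that `ab`, `bc`, `cd` have the
same colour and neither `ac` nor `bd` has this colour, in other words: the induced paths `P_4` and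
the induced cycles `C_4` of the colour classes (each of them counted a few times). -/
noncomputable def monoPaths {n : ℕ} (χ : Fin n → Fin n → ℕ) :
    Finset ((Fin n × Fin n) × (Fin n × Fin n)) :=
  univ.filter fun p => p.1.1 ≠ p.1.2 ∧ p.1.1 ≠ p.2.1 ∧ p.1.1 ≠ p.2.2 ∧ p.1.2 ≠ p.2.1 ∧
    p.1.2 ≠ p.2.2 ∧ p.2.1 ≠ p.2.2 ∧ χ p.1.1 p.1.2 = χ p.1.2 p.2.1 ∧
    χ p.2.1 p.2.2 = χ p.1.2 p.2.1 ∧ χ p.1.1 p.2.1 ≠ χ p.1.2 p.2.1 ∧
    χ p.1.2 p.2.2 ≠ χ p.1.2 p.2.1

/-- Turán's number: `s(s-1)(2s-1)`, `s^2(2s-1)`, `s^2(2s+1)` for `n = 3s, 3s+1, 3s+2`. -/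
def turan (n : ℕ) : ℕ :=
  if n % 3 = 0 then (n / 3) * (n / 3 - 1) * (2 * (n / 3) - 1)
  else if n % 3 = 1 then (n / 3) ^ 2 * (2 * (n / 3) - 1)
  else (n / 3) ^ 2 * (2 * (n / 3) + 1)


theorem nonRainbow_eq {n : ℕ} (χ : Fin n → Fin n → ℕ) :
    nonRainbow χ = (univ.powersetCard 3) \ Pool.Agent.Run7.h918.TP.Rainbow.proper χ 3 := by
  ext T
  unfold nonRainbow Pool.Agent.Run7.h918.TP.Rainbow.proper Pool.Agent.Run7.h918.TP.Rainbow.ProperOn
  simp only [mem_filter, mem_sdiff, not_and]
  constructor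
  · rintro ⟨h1, x, hx, y, hy, z, hz, hxy, hxz, hyz, h⟩
    exact ⟨h1, fun _ hp => hp x hx y hy z hz hxy hxz hyz h⟩
  · rintro ⟨h1, h⟩
    have := h h1
    push Not at this
    exact ⟨h1, this⟩

theorem card_add {n : ℕ} (χ : Fin n → Fin n → ℕ) :
    (Pool.Agent.Run7.h918.TP.Rainbow.proper χ 3).card + (nonRainbow χ).card = n.choose 3 := by
  rw [nonRainbow_eq]
  have h : Pool.Agent.Run7.h918.TP.Rainbow.proper χ 3 ⊆ univ.powersetCard 3 := filter_subset _ _
  have h1 := card_sdiff_add_card_eq_card h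
  rw [card_powersetCard, card_univ, Fintype.card_fin] at h1
  omega

theorem uncovered_eq {n : ℕ} (χ : Fin n → Fin n → ℕ) :
    uncovered (nonRainbow χ) = Pool.Agent.Run7.h918.TP.Rainbow.proper χ 4 := by
  unfold uncovered Pool.Agent.Run7.h918.TP.Rainbow.proper
  apply filter_congr
  intro S _
  constructor
  · intro h x hx y hy z hz hxy hxz hyz hc
    refine h {x, y, z} ?_ ?_
    · refine mem_filter.2 ⟨mem_powersetCard.2 ⟨subset_univ _, card_eq_three.2
        ⟨x, y, z, hxy, hxz, hyz, rfl⟩⟩, x, by simp, y, by simp, z, by simp, hxy, hxz, hyz, hc⟩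
    · intro u hu
      simp only [mem_insert, mem_singleton] at hu
      rcases hu with rfl | rfl | rfl <;> assumption
  · rintro h e he hS
    obtain ⟨_, x, hx, y, hy, z, hz, hxy, hxz, hyz, hc⟩ := mem_filter.1 he
    exact h x (hS hx) y (hS hy) z (hS hz) hxy hxz hyz hc

theorem uncovered_empty {n : ℕ} (H : Finset (Finset (Fin n)))
    (h : ∀ S : Finset (Fin n), S.card = 4 → ∃ e ∈ H, e ⊆ S) : uncovered H = ∅ := by
  rw [eq_empty_iff_forall_notMem]
  intro S hS
  obtain ⟨h1, h2⟩ := mem_filter.1 hS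
  obtain ⟨e, he, heS⟩ := h S (mem_powersetCard.1 h1).2
  exact h2 e he heS

/-- **Turán's (3,4)-bound for edge-colourings.** The edges of the complete graph on `n` vertices
are coloured with any number of colours, `H` is the 3-graph of the non-rainbow triples.

(1) For every `ε > 0` there is a `δ > 0` such that for all large `n`: if all but `δ n^4` of the
4-sets contain an edge of `H`, and the colour classes contain at most `δ n^4` induced `P_4` and
`C_4`, then `H` has at least `(4/9 - ε) C(n,3)` edges.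

(2) For every `n`: if every 4-set contains an edge of `H` and the colour classes contain no induced
`P_4` and `C_4`, then `H` has at least Turán's number of edges.

(3) For every `n` there is such a colouring with equality. -/
theorem result :
    (∀ ε : ℝ, 0 < ε → ∃ δ : ℝ, 0 < δ ∧ ∃ n₀ : ℕ, ∀ n : ℕ, n₀ ≤ n →
      ∀ χ : Fin n → Fin n → ℕ, (∀ x y, χ x y = χ y x) →
      ((uncovered (nonRainbow χ)).card : ℝ) ≤ δ * (n : ℝ) ^ 4 →
      ((monoPaths χ).card : ℝ) ≤ δ * (n : ℝ) ^ 4 →
      (4 / 9 - ε) * ((n.choose 3 : ℕ) : ℝ) ≤ ((nonRainbow χ).card : ℝ)) ∧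
    (∀ (n : ℕ) (χ : Fin n → Fin n → ℕ), (∀ x y, χ x y = χ y x) →
      (∀ S : Finset (Fin n), S.card = 4 → ∃ e ∈ nonRainbow χ, e ⊆ S) →
      monoPaths χ = ∅ → turan n ≤ (nonRainbow χ).card) ∧
    (∀ n : ℕ, ∃ χ : Fin n → Fin n → ℕ, (∀ x y, χ x y = χ y x) ∧
      (∀ S : Finset (Fin n), S.card = 4 → ∃ e ∈ nonRainbow χ, e ⊆ S) ∧
      monoPaths χ = ∅ ∧ (nonRainbow χ).card = turan n) := by
  obtain ⟨h1, h2⟩ := Pool.Agent.Run7.h918.TP.Rainbow.result
  refine ⟨fun ε hε => ?_, fun n χ hs hc hP => ?_, fun n => ?_⟩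
  · obtain ⟨δ, hδ, n₀, h⟩ := h1 ε hε
    refine ⟨δ, hδ, n₀, fun n hn χ hs h4 hP => ?_⟩
    rw [uncovered_eq] at h4
    have h3 := h n hn χ hs h4 hP
    have h5 : ((Pool.Agent.Run7.h918.TP.Rainbow.proper χ 3).card : ℝ) + ((nonRainbow χ).card : ℝ) =
        ((n.choose 3 : ℕ) : ℝ) := by exact_mod_cast card_add χ
    have h6 : (5 / 9 + ε) * ((n.choose 3 : ℕ) : ℝ) + (4 / 9 - ε) * ((n.choose 3 : ℕ) : ℝ) =
        ((n.choose 3 : ℕ) : ℝ) := by ring
    linarith
  · have h3 : Pool.Agent.Run7.h918.TP.Rainbow.proper χ 4 = ∅ := by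
      rw [← uncovered_eq]
      exact uncovered_empty _ hc
    have h4 := Pool.Agent.Run7.h918.TP.Rainbow.exact_bound χ hs h3 hP
    have h5 := card_add χ
    have h6 : Pool.Agent.Run7.h918.TP.Rainbow.turan n = turan n := rfl
    omega
  · obtain ⟨χ, hs, h4, hP, h⟩ := h2 n
    refine ⟨χ, hs, fun S hS => ?_, hP, ?_⟩
    · by_contra hcon
      push Not at hcon
      have : S ∈ uncovered (nonRainbow χ) :=
        mem_filter.2 ⟨mem_powersetCard.2 ⟨subset_univ _, hS⟩, hcon⟩
      rw [uncovered_eq, h4] at this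
      exact absurd this (notMem_empty _)
    · have h5 := card_add χ
      have h6 : Pool.Agent.Run7.h918.TP.Rainbow.turan n = turan n := rfl
      omega

end Pool.Agent.Run7.h918.TP.Cover
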