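import Pool.Agent.Run7.h122.Bridge

/-!
# Quadruples in two classes

Copy of the file `MP_f1799f_co/TwoClassQuadruples` by helper122.

The Turan density `5/9` for `K_4^3`-free 3-graphs with a partition into boundedly many almost
independent classes, under conditions on the quadruples meeting exactly two classes which hold in
all constructions of Fon-der-Flaass type coming from orientations of complete multipartite graphs.
-/

set_option autoImplicit false
open Finset
open scoped Classical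

namespace Pool.Agent.Run7.h918.TP.TwoClass

open Pool.Agent.Results.MP_f1799f_co.FonDerFlaass (construction K43Free IsOriented NoInducedC4 fdf)
open Pool.Agent.Run7.h122.TT

/-- the edges of `H` inside a class of the partition given by `c` -/
noncomputable def innerEdges {n r : ℕ} (H : Finset (Finset (Fin n))) (c : Fin n → Fin r) :
    Finset (Finset (Fin n)) :=
  H.filter fun e => ∃ i, ∀ x ∈ e, c x = i

/-- the number of edges of `H` inside the vertex set `S` -/
noncomputable def spans {n : ℕ} (H : Finset (Finset (Fin n))) (S : Finset (Fin n)) : ℕ :=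
  (H.filter fun e => e ⊆ S).card

/-- the 4-sets with two vertices in one class and two vertices in another class which span exactly
`k` edges of `H` -/
noncomputable def sets22 {n r : ℕ} (H : Finset (Finset (Fin n))) (c : Fin n → Fin r) (k : ℕ) :
    Finset (Finset (Fin n)) :=
  (univ.powersetCard 4).filter fun S =>
    (∃ x y z w, S = {x, y, z, w} ∧ c x = c y ∧ c z = c w ∧ c x ≠ c z) ∧ spans H S = k

/-- the 4-sets with three vertices in one class and one vertex in another class which span exactly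
`k` edges of `H` -/
noncomputable def sets31 {n r : ℕ} (H : Finset (Finset (Fin n))) (c : Fin n → Fin r) (k : ℕ) :
    Finset (Finset (Fin n)) :=
  (univ.powersetCard 4).filter fun S =>
    (∃ x y z w, S = {x, y, z, w} ∧ c x = c y ∧ c y = c z ∧ c z ≠ c w) ∧ spans H S = k

/-- `R` is an orientation of the complete multipartite graph whose classes are given by `c` -/
def Orients {n r : ℕ} (c : Fin n → Fin r) (R : Fin n → Fin n → Prop) : Prop :=
  IsOriented R ∧ ∀ x y, (R x y ∨ R y x) ↔ c x ≠ c y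

/-- the induced oriented 4-cycles `a → b → c → d → a` of `R` -/
noncomputable def fourCycles {n : ℕ} (R : Fin n → Fin n → Prop) :
    Finset (Fin n × Fin n × Fin n × Fin n) :=
  univ.filter fun q => R q.1 q.2.1 ∧ R q.2.1 q.2.2.1 ∧ R q.2.2.1 q.2.2.2 ∧ R q.2.2.2 q.1 ∧
    ¬ R q.1 q.2.2.1 ∧ ¬ R q.2.2.1 q.1 ∧ ¬ R q.2.1 q.2.2.2 ∧ ¬ R q.2.2.2 q.2.1

/-! ### The main bound -/

section main
variable {n r : ℕ} {H : Finset (Finset (Fin n))} {c : Fin n → Fin r}
  (h3 : ∀ e ∈ H, e.card = 3) (hK : K43Free H)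
include h3 hK

theorem inn_le : cnt (toSys H c h3 hK).Inn ≤ 27 * ((innerEdges H c).card : ℝ) := by
  refine (cnt_mono ?_).trans (cnt_sets3 (innerEdges H c) fun e he => h3 e (mem_filter.1 he).1)
  rintro ⟨x, y, z⟩ ⟨h1, h2, h4⟩
  refine mem_filter.2 ⟨h1, c x, ?_⟩
  intro u hu
  simp only [mem_insert, mem_singleton] at hu
  rcases hu with rfl | rfl | rfl
  · rfl
  · exact h2.symm
  · exact h4.symm

omit hK in
theorem spans_eq {x y z w : Fin n} (hS : ({x, y, z, w} : Finset (Fin n)).card = 4) :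
    ∀ e, (e ∈ H.filter fun e => e ⊆ ({x, y, z, w} : Finset (Fin n))) ↔
      e ∈ H ∧ (e = {x, y, z} ∨ e = {x, y, w} ∨ e = {x, z, w} ∨ e = {y, z, w}) := by
  intro e
  rw [mem_filter]
  constructor
  · rintro ⟨h1, h2⟩
    exact ⟨h1, sub4 h2 (h3 e h1) hS⟩
  · rintro ⟨h1, h2⟩
    refine ⟨h1, ?_⟩
    rcases h2 with rfl | rfl | rfl | rfl <;> intro a ha <;>
      simp only [mem_insert, mem_singleton] at ha ⊢ <;> tauto

theorem emp_mem {x y z w : Fin n} (h : (toSys H c h3 hK).EmpC x y z w) :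
    ({x, y, z, w} : Finset (Fin n)) ∈ sets22 H c 0 := by
  obtain ⟨c1, c2, c4, xy, zw, e1, e2, e3, e4⟩ := h
  have xz : x ≠ z := fun h => c4 (by rw [h])
  have xw : x ≠ w := fun h => c4 (by rw [h]; exact c2.symm)
  have yz : y ≠ z := fun h => c4 (by rw [c1, h])
  have yw : y ≠ w := fun h => c4 (by rw [c1, h]; exact c2.symm)
  have hS := card4' xy xz xw yz yw zw
  refine mem_filter.2 ⟨mem_powersetCard.2 ⟨subset_univ _, hS⟩, ⟨x, y, z, w, rfl, c1, c2, c4⟩, ?_⟩
  unfold spans
  rw [card_eq_zero]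
  ext e
  rw [spans_eq h3 hS]
  constructor
  · rintro ⟨h1, rfl | rfl | rfl | rfl⟩
    · exact absurd h1 e1
    · exact absurd h1 e2
    · exact absurd h1 e3
    · exact absurd h1 e4
  · intro h
    exact absurd h (notMem_empty _)

theorem emp_le : cnt (toSys H c h3 hK).Emp ≤ 256 * ((sets22 H c 0).card : ℝ) :=
  (cnt_mono fun _ h => emp_mem h3 hK h).trans
    (cnt_sets4 _ fun _ he => (mem_powersetCard.1 (mem_filter.1 he).1).2)

theorem bad_mem {x y z w : Fin n} (h : (toSys H c h3 hK).BadC x y z w) :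
    ({x, y, z, w} : Finset (Fin n)) ∈ sets22 H c 0 ∨
      ({x, y, z, w} : Finset (Fin n)) ∈ sets22 H c 1 := by
  obtain ⟨c1, c2, c4, xy, zw, e1, e2, e3⟩ := h
  by_cases k : (toSys H c h3 hK).E x z w
  · right
    have e4 : ¬ (toSys H c h3 hK).E y z w := e3.resolve_left (not_not.2 k)
    have xz : x ≠ z := fun h => c4 (by rw [h])
    have xw : x ≠ w := fun h => c4 (by rw [h]; exact c2.symm)
    have yz : y ≠ z := fun h => c4 (by rw [c1, h])
    have yw : y ≠ w := fun h => c4 (by rw [c1, h]; exact c2.symm)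
    have hS := card4' xy xz xw yz yw zw
    refine mem_filter.2 ⟨mem_powersetCard.2 ⟨subset_univ _, hS⟩, ⟨x, y, z, w, rfl, c1, c2, c4⟩, ?_⟩
    unfold spans
    rw [card_eq_one]
    refine ⟨{x, z, w}, ?_⟩
    ext e
    rw [spans_eq h3 hS, mem_singleton]
    constructor
    · rintro ⟨h1, rfl | rfl | rfl | rfl⟩
      · exact absurd h1 e1
      · exact absurd h1 e2
      · rfl
      · exact absurd h1 e4
    · rintro rfl
      exact ⟨k, by tauto⟩
  · by_cases k' : (toSys H c h3 hK).E y z w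
    · right
      have xz : x ≠ z := fun h => c4 (by rw [h])
      have xw : x ≠ w := fun h => c4 (by rw [h]; exact c2.symm)
      have yz : y ≠ z := fun h => c4 (by rw [c1, h])
      have yw : y ≠ w := fun h => c4 (by rw [c1, h]; exact c2.symm)
      have hS := card4' xy xz xw yz yw zw
      refine mem_filter.2 ⟨mem_powersetCard.2 ⟨subset_univ _, hS⟩,
        ⟨x, y, z, w, rfl, c1, c2, c4⟩, ?_⟩
      unfold spans
      rw [card_eq_one]
      refine ⟨{y, z, w}, ?_⟩
      ext e
      rw [spans_eq h3 hS, mem_singleton]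
      constructor
      · rintro ⟨h1, rfl | rfl | rfl | rfl⟩
        · exact absurd h1 e1
        · exact absurd h1 e2
        · exact absurd h1 k
        · rfl
      · rintro rfl
        exact ⟨k', by tauto⟩
    · left
      exact emp_mem h3 hK ⟨c1, c2, c4, xy, zw, e1, e2, k, k'⟩

theorem bad_le : cnt (toSys H c h3 hK).Bad ≤
    256 * ((sets22 H c 0).card : ℝ) + 256 * ((sets22 H c 1).card : ℝ) :=
  ((cnt_mono fun _ h => bad_mem h3 hK h).trans (cnt_or _ _)).trans (add_le_add
    (cnt_sets4 _ fun _ he => (mem_powersetCard.1 (mem_filter.1 he).1).2)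
    (cnt_sets4 _ fun _ he => (mem_powersetCard.1 (mem_filter.1 he).1).2))

theorem p3_mem {x y x' w : Fin n} (h : (toSys H c h3 hK).P3C x y x' w) :
    ({x, y, x', w} : Finset (Fin n)) ∈ sets31 H c 1 ∨ (toSys H c h3 hK).Inn (x, y, x') := by
  obtain ⟨⟨n1, n2, n3⟩, ⟨m1, m2, m3⟩, c4, e1⟩ := h
  by_cases k : (toSys H c h3 hK).E x y x'
  · exact Or.inr ⟨k, n2.symm, n2.symm.trans m2⟩
  · left
    have xx' : x ≠ x' := (toSys H c h3 hK).ne _ _ _ e1
    have xw : x ≠ w := (toSys H c h3 hK).ne13 _ _ _ e1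
    have x'w : x' ≠ w := (toSys H c h3 hK).ne23 _ _ _ e1
    have yw : y ≠ w := fun h => c4 (by rw [← n2, h])
    have hS := card4' n1.symm xx' xw m1 yw x'w
    refine mem_filter.2 ⟨mem_powersetCard.2 ⟨subset_univ _, hS⟩,
      ⟨x, y, x', w, rfl, n2.symm, m2, fun h => c4 ((n2.symm.trans m2).trans h)⟩, ?_⟩
    unfold spans
    rw [card_eq_one]
    refine ⟨{x, x', w}, ?_⟩
    ext e
    rw [spans_eq h3 hS, mem_singleton]
    constructor
    · rintro ⟨h1, rfl | rfl | rfl | rfl⟩
      · exact absurd h1 k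
      · exact absurd h1 n3
      · rfl
      · exact absurd ((toSys H c h3 hK).s12 _ _ _ h1) m3
    · rintro rfl
      exact ⟨e1, by tauto⟩

theorem p3_le : cnt (toSys H c h3 hK).P3 ≤
    256 * ((sets31 H c 1).card : ℝ) + cnt (toSys H c h3 hK).Inn * (n : ℝ) := by
  refine ((cnt_mono (q := fun z : Fin n × Fin n × Fin n × Fin n =>
    ({z.1, z.2.1, z.2.2.1, z.2.2.2} : Finset (Fin n)) ∈ sets31 H c 1 ∨
      (toSys H c h3 hK).Inn (z.1, z.2.1, z.2.2.1)) fun _ h => p3_mem h3 hK h).trans
      (cnt_or _ _)).trans (add_le_add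
    (cnt_sets4 _ fun _ he => (mem_powersetCard.1 (mem_filter.1 he).1).2) ?_)
  have h1 : cnt (fun z : Fin n × Fin n × Fin n × Fin n =>
      (toSys H c h3 hK).Inn (z.1, z.2.1, z.2.2.1)) ≤
      cnt (fun z : (Fin n × Fin n × Fin n) × Fin n => (toSys H c h3 hK).Inn z.1) := by
    refine cnt_map (q := fun z : (Fin n × Fin n × Fin n) × Fin n => (toSys H c h3 hK).Inn z.1)
      (fun z : Fin n × Fin n × Fin n × Fin n => ((z.1, z.2.1, z.2.2.1), z.2.2.2))
      (fun z h => h) ?_
    rintro ⟨x, x', w, w'⟩ ⟨u, u', t, t'⟩ - - h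
    simp only [Prod.mk.injEq] at h ⊢
    tauto
  refine h1.trans (le_of_eq ?_)
  rw [cnt_prod, Fintype.card_fin]

theorem card_le_EE : 6 * (H.card : ℝ) ≤ cnt (toSys H c h3 hK).EE := six_le h3

theorem orients_R : Orients c (toSys H c h3 hK).R := by
  refine ⟨fun x y h => (toSys H c h3 hK).R_asymm h, fun x y => ⟨?_, ?_⟩⟩
  · rintro (h | h)
    · exact (toSys H c h3 hK).R_ne h
    · exact ((toSys H c h3 hK).R_ne h).symm
  · intro h
    exact (toSys H c h3 hK).R_or h

theorem superfluous_le : ((H \ construction (toSys H c h3 hK).R).card : ℝ) ≤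
    cnt (toSys H c h3 hK).BadT := by
  unfold cnt
  rw [Nat.cast_le]
  refine card_le_card_of_surjOn (fun z : Fin n × Fin n × Fin n => {z.1, z.2.1, z.2.2}) ?_
  intro e he
  have he' := mem_sdiff.1 (mem_coe.1 he)
  have hc := h3 e he'.1
  have hf : e ∈ fdf (toSys H c h3 hK).R := by
    by_contra hf
    refine he'.2 ?_
    unfold construction
    exact mem_sdiff.2 ⟨mem_powersetCard.2 ⟨subset_univ _, hc⟩, hf⟩
  obtain ⟨-, x, hx, hR⟩ := mem_filter.1 hf
  have h2 : (e.erase x).card = 2 := by rw [card_erase_of_mem hx, hc]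
  obtain ⟨y, z, hyz, he2⟩ := card_eq_two.1 h2
  have hy : y ∈ e ∧ y ≠ x := by
    have : y ∈ e.erase x := by rw [he2]; simp
    exact ⟨mem_of_mem_erase this, ne_of_mem_erase this⟩
  have hz : z ∈ e ∧ z ≠ x := by
    have : z ∈ e.erase x := by rw [he2]; simp
    exact ⟨mem_of_mem_erase this, ne_of_mem_erase this⟩
  have hexyz : ({x, y, z} : Finset (Fin n)) = e := by
    rw [← insert_erase hx, he2]
  refine ⟨(x, y, z), ?_, hexyz⟩
  rw [mem_coe, mem_filter]
  refine ⟨mem_univ _, ?_, ?_⟩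
  · show ({x, y, z} : Finset (Fin n)) ∈ H
    rw [hexyz]
    exact he'.1
  · rcases hR with hR | hR
    · left
      have h4 := hR y hy.1 hy.2
      have h5 := hR z hz.1 hz.2
      exact ⟨(toSys H c h3 hK).c_eq h4.1 h4.2, (toSys H c h3 hK).c_eq h5.1 h5.2⟩
    · right
      exact ⟨hR y hy.1 hy.2, hR z hz.1 hz.2⟩

theorem cycles_le : ((fourCycles (toSys H c h3 hK).R).card : ℝ) ≤ cnt (toSys H c h3 hK).C4 := by
  unfold cnt
  rw [Nat.cast_le]
  refine card_le_card fun q hq => ?_
  simp only [mem_filter, mem_univ, true_and, fourCycles] at hq ⊢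
  exact hq

end main

theorem main_bound (r : ℕ) (η : ℝ) (hη : 0 < η) : ∃ δ : ℝ, 0 < δ ∧ ∃ N : ℕ, ∀ n : ℕ, N ≤ n →
      ∀ (H : Finset (Finset (Fin n))) (c : Fin n → Fin r),
        (∀ e ∈ H, e.card = 3) → K43Free H →
        ((innerEdges H c).card : ℝ) ≤ δ * (n : ℝ) ^ 3 →
        ((sets22 H c 0).card : ℝ) ≤ δ * (n : ℝ) ^ 4 →
        (((sets22 H c 1).card : ℝ) ≤ δ * (n : ℝ) ^ 4 ∨
          ((sets31 H c 1).card : ℝ) ≤ δ * (n : ℝ) ^ 4) →
        (H.card : ℝ) ≤ (5 / 9 + η) * ((n.choose 3 : ℕ) : ℝ) ∧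
        ∃ R : Fin n → Fin n → Prop, Orients c R ∧
          ((H \ construction R).card : ℝ) ≤ η * (n : ℝ) ^ 3 ∧
          ((fourCycles R).card : ℝ) ≤ η * (n : ℝ) ^ 4 := by
  obtain ⟨β, hβ0, hβη, hβ⟩ := density_thm r (half_pos hη)
  obtain ⟨N1, hN1⟩ := exists_nat_gt (1 / β)
  obtain ⟨N2, hN2⟩ := exists_nat_gt (6 * (5 / 9 + η) / η)
  refine ⟨β / 600, by positivity, max N1 N2, fun n hn H c h3 hK hI h0 h1 => ?_⟩
  have hn1 : (N1 : ℝ) ≤ n := by exact_mod_cast (le_max_left N1 N2).trans hn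
  have hn2 : (N2 : ℝ) ≤ n := by exact_mod_cast (le_max_right N1 N2).trans hn
  have hβn : 1 ≤ β * (n : ℝ) := by
    have : 1 / β < n := lt_of_lt_of_le hN1 hn1
    rw [div_lt_iff₀ hβ0] at this
    linarith
  have hn0 : (0 : ℝ) ≤ n := Nat.cast_nonneg n
  have hn3 : (0 : ℝ) ≤ (n : ℝ) ^ 3 := by positivity
  have hn4 : (0 : ℝ) ≤ (n : ℝ) ^ 4 := by positivity
  have hb3 : 0 ≤ β * (n : ℝ) ^ 3 := by positivity
  have hb4 : 0 ≤ β * (n : ℝ) ^ 4 := by positivity
  have hInn := inn_le (c := c) h3 hK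
  have hHyp : (toSys H c h3 hK).Hyp β := by
    refine ⟨by linarith, ?_, ?_⟩
    · have := emp_le (c := c) h3 hK
      linarith
    · rcases h1 with h1 | h1
      · right
        have := bad_le (c := c) h3 hK
        linarith
      · left
        have h2 := p3_le (c := c) h3 hK
        have h4 : cnt (toSys H c h3 hK).Inn * (n : ℝ) ≤ 27 * (β / 600 * (n : ℝ) ^ 3) * n :=
          mul_le_mul_of_nonneg_right (by linarith) hn0
        have e1 : 27 * (β / 600 * (n : ℝ) ^ 3) * n = 27 / 600 * (β * (n : ℝ) ^ 4) := by ring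
        linarith
  obtain ⟨a1, a2, a3⟩ := hβ n hβn (toSys H c h3 hK) hHyp
  refine ⟨?_, (toSys H c h3 hK).R, orients_R h3 hK, ?_, ?_⟩
  · have h6 := card_le_EE (c := c) h3 hK
    have h7 : 6 * (5 / 9 + η) < η * n := by
      have : 6 * (5 / 9 + η) / η < n := lt_of_lt_of_le hN2 hn2
      rw [div_lt_iff₀ hη] at this
      linarith
    have h8 : 6 * (5 / 9 + η) * (n : ℝ) ^ 2 ≤ η * n * (n : ℝ) ^ 2 :=
      mul_le_mul_of_nonneg_right h7.le (by positivity)
    have h9 : η * n * (n : ℝ) ^ 2 = η * (n : ℝ) ^ 3 := by ring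
    rw [Pool.Agent.Results.MP_f1799f_co.FonDerFlaass.choose_three]
    have h10 : 0 ≤ (5 / 9 + η) * ((n : ℝ) / 3) := by positivity
    have h11 : (5 / 9 + η) * ((n : ℝ) ^ 3 / 6 - (n : ℝ) ^ 2 / 2 + (n : ℝ) / 3) =
      (5 / 9 + η) * (n : ℝ) ^ 3 / 6 - (6 * (5 / 9 + η) * (n : ℝ) ^ 2) / 12 +
        (5 / 9 + η) * ((n : ℝ) / 3) := by ring
    rw [h11]
    linarith
  · refine (superfluous_le h3 hK).trans (a2.trans ?_)
    exact mul_le_mul_of_nonneg_right (by linarith) hn3
  · refine (cycles_le h3 hK).trans (a3.trans ?_)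
    exact mul_le_mul_of_nonneg_right (by linarith) hn4

/-! ### The Fon-der-Flaass constructions satisfy the hypotheses -/

section cover
variable {n r : ℕ} {c : Fin n → Fin r} {R : Fin n → Fin n → Prop}

theorem mem_con {s : Finset (Fin n)} : s ∈ construction R ↔ s.card = 3 ∧ s ∉ fdf R := by
  unfold construction
  rw [mem_sdiff, mem_powersetCard]
  simp

theorem fdf_iff (hR : Orients c R) {x y w : Fin n} (hxy : x ≠ y) (h1 : c x = c y)
    (h2 : c x ≠ c w) : ({x, y, w} : Finset (Fin n)) ∈ fdf R ↔ R w x ∧ R w y := by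
  have xw : x ≠ w := fun h => h2 (by rw [h])
  have yw : y ≠ w := fun h => h2 (by rw [h1, h])
  have h2' : c y ≠ c w := fun h => h2 (h1.trans h)
  have nxy : ¬ R x y := fun h => (hR.2 x y).1 (Or.inl h) h1
  have nyx : ¬ R y x := fun h => (hR.2 x y).1 (Or.inr h) h1
  constructor
  · intro h
    obtain ⟨-, u, hu, hu2⟩ := mem_filter.1 h
    simp only [mem_insert, mem_singleton] at hu
    rcases hu with rfl | rfl | rfl
    · rcases hu2 with k | k
      · have := k w (by simp) xw.symm
        rcases (hR.2 _ _).2 h2 with m | m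
        · exact absurd m this.1
        · exact absurd m this.2
      · exact absurd (k y (by simp) hxy.symm) nxy
    · rcases hu2 with k | k
      · have := k w (by simp) yw.symm
        rcases (hR.2 _ _).2 h2' with m | m
        · exact absurd m this.1
        · exact absurd m this.2
      · exact absurd (k x (by simp) hxy) nyx
    · rcases hu2 with k | k
      · have := k x (by simp) xw
        rcases (hR.2 _ _).2 h2 with m | m
        · exact absurd m this.2
        · exact absurd m this.1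
      · exact ⟨k x (by simp) xw, k y (by simp) yw⟩
  · rintro ⟨k1, k2⟩
    refine mem_filter.2 ⟨mem_powersetCard.2 ⟨subset_univ _, card3' hxy xw yw⟩, w, by simp,
      Or.inr ?_⟩
    intro y' hy' hne
    simp only [mem_insert, mem_singleton] at hy'
    rcases hy' with rfl | rfl | rfl
    · exact k1
    · exact k2
    · exact absurd rfl hne

theorem fdf_inner (hR : Orients c R) {x y z : Fin n} (hxy : x ≠ y) (hxz : x ≠ z) (hyz : y ≠ z)
    (h1 : c x = c y) (h2 : c x = c z) : ({x, y, z} : Finset (Fin n)) ∈ fdf R := by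
  refine mem_filter.2 ⟨mem_powersetCard.2 ⟨subset_univ _, card3' hxy hxz hyz⟩, x, by simp,
    Or.inl ?_⟩
  intro y' hy' hne
  simp only [mem_insert, mem_singleton] at hy'
  have key : c x = c y' → ¬ R x y' ∧ ¬ R y' x := fun h =>
    ⟨fun k => (hR.2 x y').1 (Or.inl k) h, fun k => (hR.2 x y').1 (Or.inr k) h⟩
  rcases hy' with rfl | rfl | rfl
  · exact absurd rfl hne
  · exact key h1
  · exact key h2

theorem inner_empty (hR : Orients c R) : innerEdges (construction R) c = ∅ := by
  rw [eq_empty_iff_forall_notMem]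
  intro e he
  obtain ⟨h1, i, hi⟩ := mem_filter.1 he
  obtain ⟨h3, h4⟩ := mem_con.1 h1
  obtain ⟨x, y, z, hxy, hxz, hyz, rfl⟩ := card_eq_three.1 h3
  exact h4 (fdf_inner hR hxy hxz hyz ((hi x (by simp)).trans (hi y (by simp)).symm)
    ((hi x (by simp)).trans (hi z (by simp)).symm))

theorem two_le_spans {H : Finset (Finset (Fin n))} {S s t : Finset (Fin n)} (hs : s ∈ H)
    (ht : t ∈ H) (hsS : s ⊆ S) (htS : t ⊆ S) (hst : s ≠ t) : 2 ≤ spans H S := by
  unfold spans
  have : 1 < (H.filter fun e => e ⊆ S).card :=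
    one_lt_card.2 ⟨s, mem_filter.2 ⟨hs, hsS⟩, t, mem_filter.2 ⟨ht, htS⟩, hst⟩
  omega

theorem sets22_empty (hR : Orients c R) {k : ℕ} (hk : k ≤ 1) :
    sets22 (construction R) c k = ∅ := by
  rw [eq_empty_iff_forall_notMem]
  intro S hS
  obtain ⟨h1, ⟨x, y, z, w, rfl, c1, c2, c3⟩, h2⟩ := mem_filter.1 hS
  obtain ⟨xy, xz, xw, yz, yw, zw⟩ := dist4 (mem_powersetCard.1 h1).2
  have sub : ∀ a b d : Fin n, a ∈ ({x, y, z, w} : Finset (Fin n)) →
      b ∈ ({x, y, z, w} : Finset (Fin n)) → d ∈ ({x, y, z, w} : Finset (Fin n)) →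
      ({a, b, d} : Finset (Fin n)) ⊆ {x, y, z, w} := by
    intro a b d ha hb hd u hu
    simp only [mem_insert, mem_singleton] at hu
    rcases hu with rfl | rfl | rfl <;> assumption
  have hx : x ∈ ({x, y, z, w} : Finset (Fin n)) := by simp
  have hy : y ∈ ({x, y, z, w} : Finset (Fin n)) := by simp
  have hz : z ∈ ({x, y, z, w} : Finset (Fin n)) := by simp
  have hw : w ∈ ({x, y, z, w} : Finset (Fin n)) := by simp
  have c3' : c x ≠ c w := fun h => c3 (h.trans c2.symm)
  have c4 : c y ≠ c z := fun h => c3 (c1.trans h)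
  -- if one of `z, w` dominates `x` and `y`, then `{z,w,x}` and `{z,w,y}` are edges
  have main : ¬ R x z ∨ ¬ R x w → ¬ R y z ∨ ¬ R y w →
      2 ≤ spans (construction R) {x, y, z, w} := by
    intro k1 k2
    have m1 : ({z, w, x} : Finset (Fin n)) ∈ construction R := by
      refine mem_con.2 ⟨card3' zw xz.symm xw.symm, fun h => ?_⟩
      have := (fdf_iff hR zw c2 c3.symm).1 h
      rcases k1 with k | k
      · exact k this.1
      · exact k this.2
    have m2 : ({z, w, y} : Finset (Fin n)) ∈ construction R := by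
      refine mem_con.2 ⟨card3' zw yz.symm yw.symm, fun h => ?_⟩
      have := (fdf_iff hR zw c2 c4.symm).1 h
      rcases k2 with k | k
      · exact k this.1
      · exact k this.2
    refine two_le_spans m1 m2 (sub _ _ _ hz hw hx) (sub _ _ _ hz hw hy) ?_
    intro h
    have : x ∈ ({z, w, y} : Finset (Fin n)) := by rw [← h]; simp
    simp only [mem_insert, mem_singleton] at this
    tauto
  have hfin : 2 ≤ spans (construction R) {x, y, z, w} := by
    by_cases k1 : R z x ∧ R z y
    · exact main (Or.inl (hR.1 _ _ k1.1)) (Or.inl (hR.1 _ _ k1.2))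
    · by_cases k2 : R w x ∧ R w y
      · exact main (Or.inr (hR.1 _ _ k2.1)) (Or.inr (hR.1 _ _ k2.2))
      · have m1 : ({x, y, z} : Finset (Fin n)) ∈ construction R :=
          mem_con.2 ⟨card3' xy xz yz, fun h => k1 ((fdf_iff hR xy c1 c3).1 h)⟩
        have m2 : ({x, y, w} : Finset (Fin n)) ∈ construction R :=
          mem_con.2 ⟨card3' xy xw yw, fun h => k2 ((fdf_iff hR xy c1 c3').1 h)⟩
        refine two_le_spans m1 m2 (sub _ _ _ hx hy hz) (sub _ _ _ hx hy hw) ?_
        intro h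
        have : z ∈ ({x, y, w} : Finset (Fin n)) := by rw [← h]; simp
        simp only [mem_insert, mem_singleton] at this
        tauto
  omega

theorem sets31_empty (hR : Orients c R) : sets31 (construction R) c 1 = ∅ := by
  rw [eq_empty_iff_forall_notMem]
  intro S hS
  obtain ⟨h1, ⟨x, y, z, w, rfl, c1, c2, c3⟩, h2⟩ := mem_filter.1 hS
  have h4 := (mem_powersetCard.1 h1).2
  obtain ⟨xy, xz, xw, yz, yw, zw⟩ := dist4 h4
  have c4 : c x ≠ c w := fun h => c3 (c2.symm.trans (c1.symm.trans h))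
  have c5 : c y ≠ c w := fun h => c3 (c2.symm.trans h)
  obtain ⟨e, he⟩ := card_eq_one.1 h2
  have heS : e ∈ construction R ∧ e ⊆ {x, y, z, w} := by
    have : e ∈ (construction R).filter fun e => e ⊆ ({x, y, z, w} : Finset (Fin n)) := by
      rw [he]; simp
    exact mem_filter.1 this
  -- the only edge is `e`
  have only : ∀ t : Finset (Fin n), t ⊆ {x, y, z, w} → t.card = 3 → t ≠ e → t ∈ fdf R := by
    intro t ht htc hte
    by_contra hf
    have : t ∈ (construction R).filter fun e => e ⊆ ({x, y, z, w} : Finset (Fin n)) :=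
      mem_filter.2 ⟨mem_con.2 ⟨htc, hf⟩, ht⟩
    rw [he, mem_singleton] at this
    exact hte this
  have hc := mem_con.1 heS.1
  have s1 : ({x, y, w} : Finset (Fin n)) ⊆ {x, y, z, w} := by
    intro u hu; simp only [mem_insert, mem_singleton] at hu ⊢; tauto
  have s2 : ({x, z, w} : Finset (Fin n)) ⊆ {x, y, z, w} := by
    intro u hu; simp only [mem_insert, mem_singleton] at hu ⊢; tauto
  have s3 : ({y, z, w} : Finset (Fin n)) ⊆ {x, y, z, w} := by
    intro u hu; simp only [mem_insert, mem_singleton] at hu ⊢; tauto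
  have n12 : ({x, z, w} : Finset (Fin n)) ≠ {x, y, w} := by
    intro h
    have : z ∈ ({x, y, w} : Finset (Fin n)) := by rw [← h]; simp
    simp only [mem_insert, mem_singleton] at this
    tauto
  have n13 : ({y, z, w} : Finset (Fin n)) ≠ {x, y, w} := by
    intro h
    have : z ∈ ({x, y, w} : Finset (Fin n)) := by rw [← h]; simp
    simp only [mem_insert, mem_singleton] at this
    tauto
  have n23 : ({y, z, w} : Finset (Fin n)) ≠ {x, z, w} := by
    intro h
    have : y ∈ ({x, z, w} : Finset (Fin n)) := by rw [← h]; simp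
    simp only [mem_insert, mem_singleton] at this
    tauto
  rcases sub4 heS.2 hc.1 h4 with rfl | rfl | rfl | rfl
  · exact hc.2 (fdf_inner hR xy xz yz c1 (c1.trans c2))
  · have k2 := (fdf_iff hR xz (c1.trans c2) c4).1 (only _ s2 (card3' xz xw zw) n12)
    have k3 := (fdf_iff hR yz c2 c5).1 (only _ s3 (card3' yz yw zw) n13)
    exact hc.2 ((fdf_iff hR xy c1 c4).2 ⟨k2.1, k3.1⟩)
  · have k1 := (fdf_iff hR xy c1 c4).1 (only _ s1 (card3' xy xw yw) n12.symm)
    have k3 := (fdf_iff hR yz c2 c5).1 (only _ s3 (card3' yz yw zw) n23)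
    exact hc.2 ((fdf_iff hR xz (c1.trans c2) c4).2 ⟨k1.1, k3.2⟩)
  · have k1 := (fdf_iff hR xy c1 c4).1 (only _ s1 (card3' xy xw yw) n13.symm)
    have k2 := (fdf_iff hR xz (c1.trans c2) c4).1 (only _ s2 (card3' xz xw zw) n23.symm)
    exact hc.2 ((fdf_iff hR yz c2 c5).2 ⟨k1.2, k2.2⟩)

end cover

/-- the classes of Turan's construction -/
def turanC (n : ℕ) (x : Fin n) : Fin 3 := ⟨(x : ℕ) % 3, Nat.mod_lt _ (by norm_num)⟩

theorem turan_orients (n : ℕ) :
    Orients (turanC n) (Pool.Agent.Results.MP_f1799f_co.FonDerFlaass.turanR n) := by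
  refine ⟨Pool.Agent.Results.MP_f1799f_co.FonDerFlaass.turan_oriented n, fun x y => ?_⟩
  unfold Pool.Agent.Results.MP_f1799f_co.FonDerFlaass.turanR turanC
  rw [Ne, Fin.mk.injEq]
  omega

/-- **The Turan density `5/9` from quadruples in two classes.** Let `H` be a `K_4^3`-free 3-graph
on `n` vertices with a partition of the vertices into `r` classes such that few edges lie inside
classes, few of the 4-sets with two vertices in each of two classes span no edge, and (i) few such
4-sets span exactly one edge or (ii) few of the 4-sets with three vertices in one class and one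
vertex in another class span exactly one edge. Then `H` has at most `(5/9+o(1)) C(n,3)` edges, and
all but `o(n^3)` of them lie in the Fon-der-Flaass construction from an orientation of the complete
`r`-partite graph with `o(n^4)` induced oriented 4-cycles. All Fon-der-Flaass constructions from
orientations of complete multipartite graphs without induced oriented 4-cycles satisfy the
hypotheses with zero exceptions, and the bound is attained asymptotically for `r = 3`. -/
theorem result :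
    (∀ (r : ℕ) (η : ℝ), 0 < η → ∃ δ : ℝ, 0 < δ ∧ ∃ N : ℕ, ∀ n : ℕ, N ≤ n →
      ∀ (H : Finset (Finset (Fin n))) (c : Fin n → Fin r),
        (∀ e ∈ H, e.card = 3) → K43Free H →
        ((innerEdges H c).card : ℝ) ≤ δ * (n : ℝ) ^ 3 →
        ((sets22 H c 0).card : ℝ) ≤ δ * (n : ℝ) ^ 4 →
        (((sets22 H c 1).card : ℝ) ≤ δ * (n : ℝ) ^ 4 ∨
          ((sets31 H c 1).card : ℝ) ≤ δ * (n : ℝ) ^ 4) →
        (H.card : ℝ) ≤ (5 / 9 + η) * ((n.choose 3 : ℕ) : ℝ) ∧
        ∃ R : Fin n → Fin n → Prop, Orients c R ∧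
          ((H \ construction R).card : ℝ) ≤ η * (n : ℝ) ^ 3 ∧
          ((fourCycles R).card : ℝ) ≤ η * (n : ℝ) ^ 4) ∧
    (∀ (n r : ℕ) (c : Fin n → Fin r) (R : Fin n → Fin n → Prop), Orients c R → NoInducedC4 R →
      (∀ e ∈ construction R, e.card = 3) ∧ K43Free (construction R) ∧
      innerEdges (construction R) c = ∅ ∧ sets22 (construction R) c 0 = ∅ ∧
      sets22 (construction R) c 1 = ∅ ∧ sets31 (construction R) c 1 = ∅) ∧
    (∀ ε : ℝ, 0 < ε → ∃ N : ℕ, ∀ n : ℕ, N ≤ n →
      ∃ (c : Fin n → Fin 3) (R : Fin n → Fin n → Prop), Orients c R ∧ NoInducedC4 R ∧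
        (5 / 9 - ε) * ((n.choose 3 : ℕ) : ℝ) ≤ ((construction R).card : ℝ)) := by
  refine ⟨main_bound, fun n r c R hR hC => ⟨fun e he => (mem_con.1 he).1,
    Pool.Agent.Results.MP_f1799f_co.FonDerFlaass.k43free R hR.1 hC, inner_empty hR,
    sets22_empty hR (by norm_num), sets22_empty hR le_rfl, sets31_empty hR⟩, fun ε hε => ?_⟩
  obtain ⟨N, hN⟩ := exists_nat_gt (80 / ε)
  refine ⟨max N 8, fun n hn => ⟨turanC n,
    Pool.Agent.Results.MP_f1799f_co.FonDerFlaass.turanR n, turan_orients n,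
    Pool.Agent.Results.MP_f1799f_co.FonDerFlaass.turan_noC4 n, ?_⟩⟩
  have hn1 : (N : ℝ) ≤ n := by exact_mod_cast (le_max_left N 8).trans hn
  have hn8 : (8 : ℝ) ≤ n := by exact_mod_cast (le_max_right N 8).trans hn
  have he : 80 ≤ ε * n := by
    have : 80 / ε < n := lt_of_lt_of_le hN hn1
    rw [div_lt_iff₀ hε] at this
    linarith
  have h0 := Pool.Agent.Results.MP_f1799f_co.FonDerFlaass.turan_card n
  rw [Pool.Agent.Results.MP_f1799f_co.FonDerFlaass.card_construction,
    Pool.Agent.Results.MP_f1799f_co.FonDerFlaass.choose_three]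
  have h1 : (n : ℝ) ^ 3 / 6 - (n : ℝ) ^ 2 / 2 ≥ (n : ℝ) ^ 3 / 12 := by
    nlinarith [sq_nonneg (n : ℝ)]
  have h2 : 80 * ((n : ℝ) ^ 2 / 12) ≤ ε * n * ((n : ℝ) ^ 2 / 12) :=
    mul_le_mul_of_nonneg_right he (by positivity)
  have h3 : 0 ≤ ε * ((n : ℝ) / 3) := by positivity
  have h4 : ε * ((n : ℝ) ^ 3 / 12) ≤ ε * ((n : ℝ) ^ 3 / 6 - (n : ℝ) ^ 2 / 2) :=
    mul_le_mul_of_nonneg_left h1 hε.le
  nlinarith

end Pool.Agent.Run7.h918.TP.TwoClass
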